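import Pool.Agent.H8.UG.Targets
import Mathlib.RingTheory.Morita.Matrix

/-! Board ubg, row MOR (helper12): matrix rings have the same uniserial dimension. -/

set_option autoImplicit false

open CategoryTheory Matrix.Module

namespace Pool.Agent.H12.UG

open Pool.Agent.H8.UG Pool.Agent.H8.UB Pool.Agent.H56.UDs

variable (S : Type) [Ring S] (d : ℕ)

theorem fin_pow (N : Type) [AddCommGroup N] [Module S N] [Module.Finite S N] :
    Module.Finite (Matrix (Fin d) (Fin d) S) (Fin d → N) :=
  Module.Finite.of_restrictScalars_finite S (Matrix (Fin d) (Fin d) S) (Fin d → N)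

/-- the functor `N ↦ N^d` -/
noncomputable def mfun : FGModuleCat.{0} S ⥤ FGModuleCat.{0} (Matrix (Fin d) (Fin d) S) where
  obj N := haveI := fin_pow S d N
    FGModuleCat.of (Matrix (Fin d) (Fin d) S) (Fin d → N)
  map {M N} f := haveI := fin_pow S d M
    haveI := fin_pow S d N
    FGModuleCat.ofHom (f.hom.hom.mapMatrixModule (Fin d))
  map_id _ := rfl
  map_comp _ _ := rfl

instance : (mfun S d).Additive where
  map_add := rfl

variable {S d}

theorem faithful (i₀ : Fin d) : (mfun S d).Faithful where
  map_injective {M N f g} h := by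
    apply FGModuleCat.hom_ext
    apply LinearMap.ext
    intro x
    have h1 := congrArg (fun t => (t.hom.hom : (Fin d → M) → (Fin d → N)) (fun _ => x) i₀) h
    exact h1

/-- back -/
def back (i₀ : Fin d) {M N : Type} [AddCommGroup M] [AddCommGroup N] [Module S M] [Module S N]
    (f : (Fin d → M) →ₗ[Matrix (Fin d) (Fin d) S] (Fin d → N)) : M →ₗ[S] N where
  toFun m := f (Pi.single i₀ m) i₀
  map_add' x y := by
    rw [Pi.single_add, map_add, Pi.add_apply]
  map_smul' s x := by
    have h : (Pi.single i₀ (s • x) : Fin d → M) =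
        (Matrix.single i₀ i₀ s : Matrix (Fin d) (Fin d) S) • (Pi.single i₀ x : Fin d → M) := by
      rw [single_smul, Pi.single_eq_same]
    rw [h, map_smul, single_smul, Pi.single_eq_same]
    rfl

theorem back_spec (i₀ : Fin d) {M N : Type} [AddCommGroup M] [AddCommGroup N] [Module S M]
    [Module S N] (f : (Fin d → M) →ₗ[Matrix (Fin d) (Fin d) S] (Fin d → N)) (v : Fin d → M)
    (i : Fin d) : back i₀ f (v i) = f v i := by
  have h : (Pi.single i₀ (v i) : Fin d → M) =
      (Matrix.single i₀ i 1 : Matrix (Fin d) (Fin d) S) • v := by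
    rw [single_smul, one_smul]
  change f (Pi.single i₀ (v i)) i₀ = f v i
  rw [h, map_smul, single_smul, Pi.single_eq_same, one_smul]

theorem full (i₀ : Fin d) : (mfun S d).Full where
  map_surjective {M N} f := by
    refine ⟨FGModuleCat.ofHom (back i₀ (M := M) (N := N) f.hom.hom), ?_⟩
    apply FGModuleCat.hom_ext
    apply LinearMap.ext
    intro v
    funext i
    exact back_spec i₀ (M := M) (N := N) f.hom.hom v i

theorem essSurj (i₀ : Fin d) : (mfun S d).EssSurj where
  mem_essImage X := by
    let _ := Module.compHom X (Matrix.scalar (α := S) (Fin d))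
    have _ : IsScalarTower S (Matrix (Fin d) (Fin d) S) X :=
      MatrixModCat.isScalarTower_toModuleCat S (ModuleCat.of (Matrix (Fin d) (Fin d) S) X)
    have _ : Module.Finite S X := Module.Finite.trans (Matrix (Fin d) (Fin d) S) X
    have _ : Module.Finite S (MatrixModCat.toModuleCatObj S X i₀) := by
      unfold MatrixModCat.toModuleCatObj
      infer_instance
    have _ : Module.Finite (Matrix (Fin d) (Fin d) S)
        (Fin d → (FGModuleCat.of S (MatrixModCat.toModuleCatObj S X i₀) : Type)) :=
      fin_pow S d _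
    exact ⟨FGModuleCat.of S (MatrixModCat.toModuleCatObj S X i₀),
      ⟨LinearEquiv.toFGModuleCatIso (toModuleCatFromModuleCatLinearEquiv S
        (ModuleCat.of (Matrix (Fin d) (Fin d) S) X) i₀).symm⟩⟩

theorem pf_MOR : G_MOR := by
  intro S _ d hd
  have _ := faithful (S := S) (⟨0, hd⟩ : Fin d)
  have _ := full (S := S) (⟨0, hd⟩ : Fin d)
  have _ := essSurj (S := S) (⟨0, hd⟩ : Fin d)
  have _ : (mfun S d).IsEquivalence := {}
  have h : (mfun S d).asEquivalence.functor.Additive := (inferInstance : (mfun S d).Additive)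
  exact (udim_eqv (mfun S d).asEquivalence).symm

end Pool.Agent.H12.UG
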